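import Mathlib
import Pool.Agent.H825R3.Tsi.Defs
import Pool.Agent.H825R3.Tsi.Exist

set_option autoImplicit false

/-!
# MP_6d986f_an: the separation constant of the unit ball of Tsirelson space is 2

For `4 ≤ a < b < c < d` (positions) the vectors `e_a + e_b` and `e_c + e_d` have norm one, and their
distance is at least `(1/2) (1 + 1 + 1 + 1) = 2`. So the vectors `e_a + e_b`, for infinitely many
disjoint pairs, form an infinite `2`-separated subset of the unit ball.
-/

namespace Pool.Agent.Results.MP_6d986f_an.SeparationConstant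

open Pool.Agent.H825R3.Tsi

/-- The separation constant: the supremum of all `r > 0` such that the closed unit ball contains an
infinite set whose distinct points have distances at least `r`. -/
noncomputable def P (X : Type) [NormedAddCommGroup X] : ℝ :=
  sSup {r : ℝ | 0 < r ∧ ∃ S : Set X, S ⊆ Metric.closedBall 0 1 ∧ S.Infinite ∧
    ∀ x ∈ S, ∀ y ∈ S, x ≠ y → r ≤ dist x y}

variable {T : Type} [NormedAddCommGroup T] [NormedSpace ℝ T] {e : ℕ → T}

lemma comb_single (a : ℕ) (r : ℝ) : comb e (Finsupp.single a r) = r • e a := by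
  simp [comb]

lemma comb_sub (x y : ℕ →₀ ℝ) : comb e (x - y) = comb e x - comb e y := by
  rw [comb_eq, comb_eq, comb_eq, map_sub]

lemma comb_add (x y : ℕ →₀ ℝ) : comb e (x + y) = comb e x + comb e y := by
  rw [comb_eq, comb_eq, comb_eq, map_add]

lemma restr_single (a : ℕ) (x : ℕ →₀ ℝ) : restr {a} x = Finsupp.single a (x a) := by
  classical
  ext k
  unfold restr
  rw [Finsupp.filter_apply, Finsupp.single_apply]
  by_cases h : a = k
  · simp [h]
  · simp [h, Ne.symm h]

lemma coord_le' (h : IsTsirelson T e) (x : ℕ →₀ ℝ) (k : ℕ) : |x k| ≤ ‖comb e x‖ :=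
  (h.norm_eq x).1 (Or.inl ⟨k, rfl⟩)

lemma adm_le2 (h : IsTsirelson T e) (x : ℕ →₀ ℝ) {n : ℕ} {E : Fin n → Finset ℕ} (hn : 1 ≤ n)
    (hE : Admissible n E) : (1 / 2) * ∑ i, ‖comb e (restr (E i) x)‖ ≤ ‖comb e x‖ :=
  (h.norm_eq x).1 (Or.inr ⟨n, E, hn, hE, rfl⟩)

lemma restr_single' (E : Finset ℕ) (a : ℕ) (r : ℝ) :
    restr E (Finsupp.single a r) = if a ∈ E then Finsupp.single a r else 0 := by
  classical
  unfold restr
  by_cases h : a ∈ E
  · rw [if_pos h, Finsupp.filter_single_of_pos _ h]
  · rw [if_neg h, Finsupp.filter_single_of_neg _ h]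

/-- For an admissible family at most one set contains `a`. -/
lemma sum_le_of_single {n : ℕ} {E : Fin n → Finset ℕ} (hE : Admissible n E) (a : ℕ) :
    ∑ i, ‖comb e (restr (E i) (Finsupp.single a (1 : ℝ)))‖ ≤ ‖e a‖ := by
  classical
  by_cases h : ∃ i, a ∈ E i
  · obtain ⟨i, hi⟩ := h
    rw [Finset.sum_eq_single i]
    · rw [restr_single', if_pos hi, comb_single, one_smul]
    · intro j _ hj
      have h1 : a ∉ E j := by
        intro h2
        rcases lt_or_gt_of_ne hj with h3 | h3
        · exact absurd (hE.2.2 j i h3 a h2 a hi) (lt_irrefl _)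
        · exact absurd (hE.2.2 i j h3 a hi a h2) (lt_irrefl _)
      rw [restr_single', if_neg h1]
      simp [comb]
    · simp
  · push Not at h
    rw [Finset.sum_eq_zero]
    · exact norm_nonneg _
    · intro j _
      rw [restr_single', if_neg (h j)]
      simp [comb]

lemma norm_e (h : IsTsirelson T e) (a : ℕ) : ‖e a‖ = 1 := by
  have h1 : comb e (Finsupp.single a (1 : ℝ)) = e a := by rw [comb_single, one_smul]
  apply le_antisymm
  · have h2 : ‖e a‖ ≤ max 1 (‖e a‖ / 2) := by
      conv_lhs => rw [← h1]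
      apply (h.norm_eq _).2
      rintro r (⟨k, rfl⟩ | ⟨n, E, hn, hE, rfl⟩)
      · apply le_max_of_le_left
        rw [Finsupp.single_apply]
        split_ifs <;> simp
      · apply le_max_of_le_right
        have := sum_le_of_single (e := e) hE a
        linarith
    rcases le_max_iff.1 h2 with h3 | h3
    · exact h3
    · have := norm_nonneg (e a)
      linarith
  · have h2 := coord_le' h (Finsupp.single a (1 : ℝ)) a
    rw [h1] at h2
    simpa using h2

lemma norm_pair (h : IsTsirelson T e) (a b : ℕ) (hab : a ≠ b) : ‖e a + e b‖ ≤ 1 := by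
  have h1 : comb e (Finsupp.single a (1 : ℝ) + Finsupp.single b (1 : ℝ)) = e a + e b := by
    rw [comb_add, comb_single, comb_single, one_smul, one_smul]
  rw [← h1]
  apply (h.norm_eq _).2
  rintro r (⟨k, rfl⟩ | ⟨n, E, hn, hE, rfl⟩)
  · rw [Finsupp.add_apply, Finsupp.single_apply, Finsupp.single_apply]
    by_cases h2 : a = k
    · have h3 : b ≠ k := fun h3 => hab (h2.trans h3.symm)
      rw [if_pos h2, if_neg h3]
      simp
    · rw [if_neg h2]
      split_ifs <;> simp
  · have h2 := sum_le_of_single (e := e) hE a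
    have h3 := sum_le_of_single (e := e) hE b
    rw [norm_e h] at h2 h3
    have h4 : ∑ i, ‖comb e (restr (E i) (Finsupp.single a (1 : ℝ) + Finsupp.single b (1 : ℝ)))‖ ≤
        ∑ i, (‖comb e (restr (E i) (Finsupp.single a (1 : ℝ)))‖ +
          ‖comb e (restr (E i) (Finsupp.single b (1 : ℝ)))‖) := by
      refine Finset.sum_le_sum fun i _ => ?_
      have h5 : restr (E i) (Finsupp.single a (1 : ℝ) + Finsupp.single b (1 : ℝ)) =
          restr (E i) (Finsupp.single a (1 : ℝ)) + restr (E i) (Finsupp.single b (1 : ℝ)) := by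
        unfold restr
        exact Finsupp.filter_add
      rw [h5, comb_add]
      exact norm_add_le _ _
    rw [Finset.sum_add_distrib] at h4
    linarith

lemma two_le (h : IsTsirelson T e) (a b c d : ℕ) (ha : 3 ≤ a) (hab : a < b) (hbc : b < c)
    (hcd : c < d) : 2 ≤ ‖(e a + e b) - (e c + e d)‖ := by
  set x : ℕ →₀ ℝ := (Finsupp.single a (1 : ℝ) + Finsupp.single b (1 : ℝ)) -
    (Finsupp.single c (1 : ℝ) + Finsupp.single d (1 : ℝ)) with hx
  have h1 : comb e x = (e a + e b) - (e c + e d) := by
    rw [hx, comb_sub, comb_add, comb_add]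
    simp only [comb_single, one_smul]
  have hadm : Admissible 4 (![{a}, {b}, {c}, {d}] : Fin 4 → Finset ℕ) := by
    refine ⟨?_, ?_, ?_⟩
    · intro i
      fin_cases i <;> simp
    · intro i k hk
      fin_cases i <;> simp at hk <;> omega
    · intro i j hij u hu v hv
      fin_cases i <;> fin_cases j <;> simp at hij hu hv <;> omega
  have h2 := adm_le2 h x (by norm_num) hadm
  rw [Fin.sum_univ_four] at h2
  simp only [Matrix.cons_val_zero, Matrix.cons_val_one, Matrix.cons_val] at h2
  rw [restr_single, restr_single, restr_single, restr_single, comb_single, comb_single,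
    comb_single, comb_single, norm_smul, norm_smul, norm_smul, norm_smul, norm_e h, norm_e h,
    norm_e h, norm_e h, h1] at h2
  have xa : x a = 1 := by
    rw [hx]
    simp [show b ≠ a by omega, show c ≠ a by omega, show d ≠ a by omega]
  have xb : x b = 1 := by
    rw [hx]
    simp [show a ≠ b by omega, show c ≠ b by omega, show d ≠ b by omega]
  have xc : x c = -1 := by
    rw [hx]
    simp [show a ≠ c by omega, show b ≠ c by omega, show d ≠ c by omega]
  have xd : x d = -1 := by
    rw [hx]
    simp [show a ≠ d by omega, show b ≠ d by omega, show c ≠ d by omega]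
  rw [xa, xb, xc, xd] at h2
  norm_num at h2
  exact h2

/-- An infinite `2`-separated subset of the unit ball. -/
lemma exists_sep (h : IsTsirelson T e) : ∃ S : Set T, S ⊆ Metric.closedBall 0 1 ∧ S.Infinite ∧
    ∀ x ∈ S, ∀ y ∈ S, x ≠ y → 2 ≤ dist x y := by
  set y : ℕ → T := fun j => e (2 * j + 3) + e (2 * j + 4) with hy
  have hsep : ∀ i j, i < j → 2 ≤ dist (y i) (y j) := by
    intro i j hij
    rw [dist_eq_norm]
    exact two_le h _ _ _ _ (by omega) (by omega) (by omega) (by omega)
  have hinj : Function.Injective y := by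
    intro i j hij
    by_contra hne
    rcases lt_or_gt_of_ne hne with h1 | h1
    · have := hsep i j h1
      rw [hij, dist_self] at this
      norm_num at this
    · have := hsep j i h1
      rw [hij, dist_self] at this
      norm_num at this
  refine ⟨Set.range y, ?_, Set.infinite_range_of_injective hinj, ?_⟩
  · rintro _ ⟨j, rfl⟩
    rw [mem_closedBall_zero_iff]
    exact norm_pair h _ _ (by omega)
  · rintro _ ⟨i, rfl⟩ _ ⟨j, rfl⟩ hne
    rcases lt_trichotomy i j with h1 | h1 | h1
    · exact hsep i j h1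
    · exact absurd (by rw [h1]) hne
    · rw [dist_comm]
      exact hsep j i h1

/-- **The separation constant of Tsirelson space is `2`, and it is attained.** Tsirelson space with
its unit vectors exists, and for every realisation `(T, e)` of it, `P T = 2` and the closed unit
ball of `T` contains an infinite set whose distinct points have distance (exactly) `2`. -/
theorem result :
    (∃ (T : Type) (_ : NormedAddCommGroup T) (_ : NormedSpace ℝ T) (e : ℕ → T),
      IsTsirelson T e) ∧
    ∀ (T : Type) [NormedAddCommGroup T] [NormedSpace ℝ T] (e : ℕ → T), IsTsirelson T e →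
      P T = 2 ∧ ∃ S : Set T, S ⊆ Metric.closedBall 0 1 ∧ S.Infinite ∧
        ∀ x ∈ S, ∀ y ∈ S, x ≠ y → dist x y = 2 := by
  refine ⟨⟨TT, inferInstance, inferInstance, ee, isTsirelson_TT⟩, ?_⟩
  intro T _ _ e h
  have hle : ∀ x y : T, x ∈ Metric.closedBall (0 : T) 1 → y ∈ Metric.closedBall (0 : T) 1 →
      dist x y ≤ 2 := by
    intro x y hx hy
    rw [mem_closedBall_zero_iff] at hx hy
    rw [dist_eq_norm]
    have := norm_sub_le x y
    linarith
  obtain ⟨S, hS1, hS2, hS3⟩ := exists_sep h
  refine ⟨?_, S, hS1, hS2, fun x hx y hy hne =>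
    le_antisymm (hle x y (hS1 hx) (hS1 hy)) (hS3 x hx y hy hne)⟩
  have hub : ∀ r ∈ {r : ℝ | 0 < r ∧ ∃ S : Set T, S ⊆ Metric.closedBall 0 1 ∧ S.Infinite ∧
      ∀ x ∈ S, ∀ y ∈ S, x ≠ y → r ≤ dist x y}, r ≤ 2 := by
    rintro r ⟨-, S', h1, h2, h3⟩
    obtain ⟨x, hx, y, hy, hne⟩ := h2.nontrivial
    exact (h3 x hx y hy hne).trans (hle x y (h1 hx) (h1 hy))
  have hmem : (2 : ℝ) ∈ {r : ℝ | 0 < r ∧ ∃ S : Set T, S ⊆ Metric.closedBall 0 1 ∧ S.Infinite ∧
      ∀ x ∈ S, ∀ y ∈ S, x ≠ y → r ≤ dist x y} := ⟨by norm_num, S, hS1, hS2, hS3⟩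
  exact le_antisymm (csSup_le ⟨2, hmem⟩ hub) (le_csSup ⟨2, hub⟩ hmem)

end Pool.Agent.Results.MP_6d986f_an.SeparationConstant
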